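import Mathlib
import Pool.Agent.H75.TDDefs

/-! A tridiagonal pair of shape `1, 2, 1` with an admissible map that is not diagonalizable. -/

set_option autoImplicit false

namespace Pool.Agent.Results.MP_6ebba1_al.NotDiag

open Pool.Agent.H75.TD Module.End

/-- `S` fixes each eigenspace of `A` and maps the sum of the first `i + 1` eigenspaces of `B` onto
the sum of the last `i + 1` eigenspaces of `B`. -/
def Admissible {K V : Type} [Field K] [AddCommGroup V] [Module K V] (A B S : Module.End K V)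
    {d : ℕ} (θ η : Fin (d + 1) → K) : Prop :=
  ∀ i, (A.eigenspace (θ i)).map S = A.eigenspace (θ i) ∧
    (⨆ (j : Fin (d + 1)) (_ : j ≤ i), B.eigenspace (η j)).map S =
      ⨆ (j : Fin (d + 1)) (_ : i.rev ≤ j), B.eigenspace (η j)

variable {K : Type} [Field K] [CharZero K]

def mk4 (f : (Fin 4 → K) → Fin 4 → K) (h1 : ∀ x y, f (x + y) = f x + f y)
    (h2 : ∀ (c : K) x, f (c • x) = c • f x) : Module.End K (Fin 4 → K) := ⟨⟨f, h1⟩, h2⟩

def A : Module.End K (Fin 4 → K) := mk4 (fun x => ![2 * x 0, 0, 0, -2 * x 3])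
  (fun x y => by ext i; fin_cases i <;> simp <;> ring) (fun c x => by ext i; fin_cases i <;> simp <;> ring)

def B : Module.End K (Fin 4 → K) := mk4 (fun x => ![5 * x 0 + 8 * x 1 + 3 * x 2,
    -2 * x 0 - 5 * x 1 + 3 * x 3, 3 * x 0 + 5 * x 2 + 8 * x 3, 3 * x 1 - 2 * x 2 - 5 * x 3])
  (fun x y => by ext i; fin_cases i <;> simp <;> ring) (fun c x => by ext i; fin_cases i <;> simp <;> ring)

def S : Module.End K (Fin 4 → K) := mk4 (fun x => ![x 0, -16 * x 1 - 5 * x 2,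
    20 * x 1 + 4 * x 2, -4 * x 3])
  (fun x y => by ext i; fin_cases i <;> simp <;> ring) (fun c x => by ext i; fin_cases i <;> simp <;> ring)

theorem vec_eq (x y : Fin 4 → K) : x = y ↔ x 0 = y 0 ∧ x 1 = y 1 ∧ x 2 = y 2 ∧ x 3 = y 3 :=
  ⟨fun h => by simp [h], fun ⟨a, b, c, d⟩ => by ext i; fin_cases i <;> simpa⟩

theorem mA (μ : K) (x : Fin 4 → K) : x ∈ (A (K := K)).eigenspace μ ↔
    2 * x 0 = μ * x 0 ∧ 0 = μ * x 1 ∧ 0 = μ * x 2 ∧ -2 * x 3 = μ * x 3 := by
  rw [mem_eigenspace_iff, vec_eq]; rfl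

theorem mB (μ : K) (x : Fin 4 → K) : x ∈ (B (K := K)).eigenspace μ ↔
    5 * x 0 + 8 * x 1 + 3 * x 2 = μ * x 0 ∧ -2 * x 0 - 5 * x 1 + 3 * x 3 = μ * x 1 ∧
    3 * x 0 + 5 * x 2 + 8 * x 3 = μ * x 2 ∧ 3 * x 1 - 2 * x 2 - 5 * x 3 = μ * x 3 := by
  rw [mem_eigenspace_iff, vec_eq]; rfl

theorem A_ap (x : Fin 4 → K) : A x = ![2 * x 0, 0, 0, -2 * x 3] := rfl
theorem B_ap (x : Fin 4 → K) : B x = ![5 * x 0 + 8 * x 1 + 3 * x 2,
    -2 * x 0 - 5 * x 1 + 3 * x 3, 3 * x 0 + 5 * x 2 + 8 * x 3, 3 * x 1 - 2 * x 2 - 5 * x 3] := rfl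
theorem S_ap (x : Fin 4 → K) :
    S x = ![x 0, -16 * x 1 - 5 * x 2, 20 * x 1 + 4 * x 2, -4 * x 3] := rfl

theorem map_eq (U U' : Submodule K (Fin 4 → K)) (h1 : ∀ x ∈ U, S x ∈ U')
    (h2 : ∀ x ∈ U', ![x 0, (4 * x 1 + 5 * x 2) / 36, (-20 * x 1 - 16 * x 2) / 36, -x 3 / 4] ∈ U) :
    U.map S = U' :=
  le_antisymm (by rintro _ ⟨x, hx, rfl⟩; exact h1 x hx) fun x hx =>
    ⟨_, h2 x hx, by rw [vec_eq]; simp [S_ap]; refine ⟨?_, ?_, ?_⟩ <;> ring⟩

theorem supA (p : Fin 3 → Prop) (x : Fin 4 → K) (h0 : p 0 ∨ x 0 = 0) (h1 : p 1)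
    (h2 : p 2 ∨ x 3 = 0) : x ∈ ⨆ (j) (_ : p j), (A (K := K)).eigenspace (![2, 0, -2] j) := by
  have e : x = ![x 0, 0, 0, 0] + ![0, x 1, x 2, 0] + ![0, 0, 0, x 3] := by rw [vec_eq]; simp
  rw [e]
  refine Submodule.add_mem _ (Submodule.add_mem _ ?_ ?_) ?_
  · rcases h0 with h | h
    · exact Submodule.mem_iSup_of_mem 0 (Submodule.mem_iSup_of_mem h (by rw [mA]; simp))
    · rw [h, show (![0, 0, 0, 0] : Fin 4 → K) = 0 by rw [vec_eq]; simp]; exact zero_mem _
  · exact Submodule.mem_iSup_of_mem 1 (Submodule.mem_iSup_of_mem h1 (by rw [mA]; simp))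
  · rcases h2 with h | h
    · exact Submodule.mem_iSup_of_mem 2 (Submodule.mem_iSup_of_mem h (by rw [mA]; simp))
    · rw [h, show (![0, 0, 0, 0] : Fin 4 → K) = 0 by rw [vec_eq]; simp]; exact zero_mem _

theorem supB (p : Fin 3 → Prop) (x : Fin 4 → K) (h0 : p 0 ∨ x 0 + x 1 + x 2 + x 3 = 0) (h1 : p 1)
    (h2 : p 2 ∨ x 0 + 4 * x 1 - x 2 - 4 * x 3 = 0) :
    x ∈ ⨆ (j) (_ : p j), (B (K := K)).eigenspace (![6, 0, -6] j) := by
  set a := (x 0 + x 1 + x 2 + x 3) / 6 with ha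
  set b := -(x 0 + 4 * x 1 - x 2 - 4 * x 3) / 6 with hb
  have e : x = a • ![4, -1, 4, -1] + (x - a • ![4, -1, 4, -1] - b • ![1, -1, -1, 1]) +
      b • ![1, -1, -1, 1] := by abel
  rw [e]
  refine Submodule.add_mem _ (Submodule.add_mem _ ?_ ?_) ?_
  · rcases h0 with h | h
    · refine Submodule.mem_iSup_of_mem 0 (Submodule.mem_iSup_of_mem h (Submodule.smul_mem _ _ ?_))
      rw [mB]; simp only [Matrix.cons_val]; norm_num
    · rw [ha, h]; simp
  · refine Submodule.mem_iSup_of_mem 1 (Submodule.mem_iSup_of_mem h1 ?_)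
    rw [mB]; simp only [Pi.sub_apply, Pi.smul_apply, smul_eq_mul, Matrix.cons_val, ha, hb]
    refine ⟨?_, ?_, ?_, ?_⟩ <;> ring
  · rcases h2 with h | h
    · refine Submodule.mem_iSup_of_mem 2 (Submodule.mem_iSup_of_mem h (Submodule.smul_mem _ _ ?_))
      rw [mB]; simp only [Matrix.cons_val]; norm_num
    · rw [hb, h]; simp

theorem triA : Tri (A (K := K)) B ![2, 0, -2] := by
  refine ⟨fun i j h => ?_, fun i => ?_, eq_top_iff.2 fun x _ => ?_, fun i => ?_⟩
  · fin_cases i <;> fin_cases j <;> simp at h ⊢ <;> norm_num at h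
  · rw [Submodule.ne_bot_iff]
    fin_cases i
    · exact ⟨![1, 0, 0, 0], by rw [mA]; simp, by simp⟩
    · exact ⟨![0, 1, 0, 0], by rw [mA]; simp, by simp⟩
    · exact ⟨![0, 0, 0, 1], by rw [mA]; simp, by simp⟩
  · simpa using supA (fun _ => True) x (by simp) trivial (by simp)
  · rintro _ ⟨x, hx, rfl⟩
    rw [SetLike.mem_coe, mA] at hx
    obtain ⟨a, b, c, d⟩ := hx
    refine supA (fun j => j.val ≤ i.val + 1 ∧ i.val ≤ j.val + 1) _ ?_ (by have := i.2; simp; omega) ?_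
    · fin_cases i
      · simp
      · simp
      · right; simp only [B_ap, Matrix.cons_val, Fin.reduceFinMk] at a b c d ⊢
        linear_combination (5 / 4 : K) * a + 4 * b + (3 / 2 : K) * c
    · fin_cases i
      · right; simp only [B_ap, Matrix.cons_val, Fin.reduceFinMk] at a b c d ⊢
        linear_combination (5 / 4 : K) * d - (3 / 2 : K) * b + c
      · simp
      · simp

theorem triB : Tri (B (K := K)) A ![6, 0, -6] := by
  refine ⟨fun i j h => ?_, fun i => ?_, eq_top_iff.2 fun x _ => ?_, fun i => ?_⟩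
  · fin_cases i <;> fin_cases j <;> simp at h ⊢ <;> norm_num at h
  · rw [Submodule.ne_bot_iff]
    fin_cases i
    · exact ⟨![4, -1, 4, -1], by rw [mB]; simp only [Matrix.cons_val]; norm_num, by simp⟩
    · exact ⟨![1, -1, 1, -1], by rw [mB]; simp only [Matrix.cons_val]; norm_num, by simp⟩
    · exact ⟨![1, -1, -1, 1], by rw [mB]; simp only [Matrix.cons_val]; norm_num, by simp⟩
  · simpa using supB (fun _ => True) x (by simp) trivial (by simp)
  · rintro _ ⟨x, hx, rfl⟩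
    rw [SetLike.mem_coe, mB] at hx
    obtain ⟨a, b, c, d⟩ := hx
    refine supB (fun j => j.val ≤ i.val + 1 ∧ i.val ≤ j.val + 1) _ ?_ (by have := i.2; simp; omega) ?_
    · fin_cases i
      · simp
      · simp
      · right; simp only [A_ap, Matrix.cons_val, Fin.reduceFinMk] at a b c d ⊢
        linear_combination (11/144 : K) * a + (-11/18 : K) * b + (-1/48 : K) * c + (0 : K) * d
    · fin_cases i
      · right; simp only [A_ap, Matrix.cons_val, Fin.reduceFinMk] at a b c d ⊢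
        linear_combination (11/36 : K) * a + (2/9 : K) * b + (11/12 : K) * c + (0 : K) * d
      · simp
      · simp

theorem irr (W : Submodule K (Fin 4 → K)) (hA : W.map A ≤ W) (hB : W.map B ≤ W) :
    W = ⊥ ∨ W = ⊤ := by
  have a : ∀ x ∈ W, A x ∈ W := fun x hx => hA ⟨x, hx, rfl⟩
  have b : ∀ x ∈ W, B x ∈ W := fun x hx => hB ⟨x, hx, rfl⟩
  have p0 : ∀ x ∈ W, x 0 ≠ 0 → ![1, 0, 0, 0] ∈ W := fun x hx h => by
    convert W.smul_mem (8 * x 0)⁻¹ (W.add_mem (a _ (a x hx)) (W.smul_mem 2 (a x hx))) using 1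
    rw [vec_eq]; simp [A_ap]; field_simp; norm_num
  have p3 : ∀ x ∈ W, x 3 ≠ 0 → ![0, 0, 0, 1] ∈ W := fun x hx h => by
    convert W.smul_mem (8 * x 3)⁻¹ (W.sub_mem (a _ (a x hx)) (W.smul_mem 2 (a x hx))) using 1
    rw [vec_eq]; simp [A_ap]; field_simp; norm_num
  have q0 : ![1, 0, 0, 0] ∈ W → ![0, 0, 0, 1] ∈ W := fun h =>
    p3 _ (b _ (b _ h)) (by simp [B_ap]; norm_num)
  have q3 : ![0, 0, 0, 1] ∈ W → ![1, 0, 0, 0] ∈ W := fun h =>
    p0 _ (b _ (b _ h)) (by simp [B_ap]; norm_num)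
  have key : ![1, 0, 0, 0] ∈ W → W = ⊤ := fun h => eq_top_iff.2 fun x _ => by
    have h' := q0 h
    convert W.add_mem (W.add_mem (W.smul_mem (x 0 - 5 * ((-8 * x 1 + 3 * x 2) / 25)) h)
      (W.smul_mem ((-8 * x 1 + 3 * x 2) / 25) (b _ h)))
      (W.add_mem (W.smul_mem (x 3 + 5 * ((3 * x 1 + 2 * x 2) / 25)) h')
      (W.smul_mem ((3 * x 1 + 2 * x 2) / 25) (b _ h'))) using 1
    rw [vec_eq]; simp [B_ap]; refine ⟨?_, ?_, ?_, ?_⟩ <;> ring
  rw [or_iff_not_imp_left]
  intro hW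
  obtain ⟨x, hx, hx0⟩ := (Submodule.ne_bot_iff _).1 hW
  by_contra hn
  have n0 : ∀ x ∈ W, x 0 = 0 := fun x hx => by_contra fun h => hn (key (p0 x hx h))
  have n3 : ∀ x ∈ W, x 3 = 0 := fun x hx => by_contra fun h => hn (key (q3 (p3 x hx h)))
  have e0 := n0 x hx
  have e3 := n3 x hx
  have e1 := n0 _ (b x hx)
  have e2 := n3 _ (b x hx)
  simp [B_ap, e0, e3] at e1 e2
  refine hx0 ((vec_eq _ _).2 ⟨e0, ?_, ?_, e3⟩)
  · simp; linear_combination (2 / 25 : K) * e1 + (3 / 25 : K) * e2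
  · simp; linear_combination (3 / 25 : K) * e1 - (8 / 25 : K) * e2

def pr (i : Fin 4) : (Fin 4 → K) →ₗ[K] K := LinearMap.proj i

omit [CharZero K] in
@[simp] theorem pr_ap (i : Fin 4) (x : Fin 4 → K) : pr i x = x i := rfl

theorem le_phi (p : Fin 3 → Prop) (hp : ¬p 2) (x : Fin 4 → K)
    (hx : x ∈ ⨆ (j) (_ : p j), (B (K := K)).eigenspace (![6, 0, -6] j)) :
    x 0 + 4 * x 1 - x 2 - 4 * x 3 = 0 := by
  let f : (Fin 4 → K) →ₗ[K] K := pr 0 + (4 : K) • pr 1 - pr 2 - (4 : K) • pr 3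
  have : (⨆ (j) (_ : p j), (B (K := K)).eigenspace (![6, 0, -6] j)) ≤ LinearMap.ker f := by
    refine iSup₂_le fun j hj y hy => ?_
    obtain ⟨a, b, c, d⟩ := (mB _ _).1 hy
    fin_cases j
    · simp only [Matrix.cons_val, Fin.reduceFinMk] at a b c d; simp [f]; linear_combination (-1 / 12 : K) * (a + 4 * b - c - 4 * d)
    · simp only [Matrix.cons_val, Fin.reduceFinMk] at a b c d; simp [f]; linear_combination (-1 / 6 : K) * (a + 4 * b - c - 4 * d)
    · exact absurd hj hp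
  simpa [f] using this hx

theorem le_psi (p : Fin 3 → Prop) (hp : ¬p 0) (x : Fin 4 → K)
    (hx : x ∈ ⨆ (j) (_ : p j), (B (K := K)).eigenspace (![6, 0, -6] j)) :
    x 0 + x 1 + x 2 + x 3 = 0 := by
  let f : (Fin 4 → K) →ₗ[K] K := pr 0 + pr 1 + pr 2 + pr 3
  have : (⨆ (j) (_ : p j), (B (K := K)).eigenspace (![6, 0, -6] j)) ≤ LinearMap.ker f := by
    refine iSup₂_le fun j hj y hy => ?_
    obtain ⟨a, b, c, d⟩ := (mB _ _).1 hy
    fin_cases j
    · exact absurd hj hp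
    · simp only [Matrix.cons_val, Fin.reduceFinMk] at a b c d; simp [f]; linear_combination (1 / 6 : K) * (a + b + c + d)
    · simp only [Matrix.cons_val, Fin.reduceFinMk] at a b c d; simp [f]; linear_combination (1 / 12 : K) * (a + b + c + d)
  simpa [f] using this hx

theorem adm : Admissible (A (K := K)) B S ![2, 0, -2] ![6, 0, -6] := by
  intro i
  refine ⟨map_eq _ _ (fun x hx => ?_) (fun x hx => ?_), ?_⟩
  · rw [mA] at hx ⊢
    obtain ⟨a, b, c, d⟩ := hx
    simp only [S_ap, Matrix.cons_val]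
    exact ⟨a, by linear_combination (-16 : K) * b - 5 * c, by linear_combination (20 : K) * b + 4 * c,
      by linear_combination (-4 : K) * d⟩
  · rw [mA] at hx ⊢
    obtain ⟨a, b, c, d⟩ := hx
    simp only [Matrix.cons_val]
    exact ⟨a, by linear_combination (4 / 36 : K) * b + (5 / 36 : K) * c,
      by linear_combination (-20 / 36 : K) * b - (16 / 36 : K) * c, by linear_combination (-1 / 4 : K) * d⟩
  · fin_cases i
    · have e1 : (⨆ (j : Fin 3) (_ : j ≤ 0), (B (K := K)).eigenspace (![6, 0, -6] j)) =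
          (B (K := K)).eigenspace 6 := by simp
      have e2 : (⨆ (j : Fin 3) (_ : Fin.rev 0 ≤ j), (B (K := K)).eigenspace (![6, 0, -6] j)) =
          (B (K := K)).eigenspace (-6) := by
        have : ∀ j : Fin 3, Fin.rev 0 ≤ j ↔ j = 2 := by decide
        simp [this]
      refine Eq.trans (congrArg _ e1) (Eq.trans ?_ e2.symm)
      refine map_eq _ _ (fun x hx => ?_) (fun x hx => ?_)
      · rw [mB] at hx ⊢
        obtain ⟨a, b, c, d⟩ := hx
        have h0 : x 0 = -4 * x 3 := by linear_combination (11/72 : K) * a + (1/9 : K) * b + (11/24 : K) * c + (0 : K) * d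
        have h1 : x 1 = x 3 := by linear_combination (-1/36 : K) * a + (-1/9 : K) * b + (-1/12 : K) * c + (0 : K) * d
        have h2 : x 2 = -4 * x 3 := by linear_combination (11/24 : K) * a + (1/3 : K) * b + (3/8 : K) * c + (0 : K) * d
        simp only [S_ap, Matrix.cons_val, h0, h1, h2]
        refine ⟨?_, ?_, ?_, ?_⟩ <;> ring
      · rw [mB] at hx ⊢
        obtain ⟨a, b, c, d⟩ := hx
        have h0 : x 0 = x 3 := by linear_combination (11/288 : K) * a + (-11/36 : K) * b + (-1/96 : K) * c + (0 : K) * d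
        have h1 : x 1 = -x 3 := by linear_combination (11/144 : K) * a + (7/18 : K) * b + (-1/48 : K) * c + (0 : K) * d
        have h2 : x 2 = -x 3 := by linear_combination (-1/96 : K) * a + (1/12 : K) * b + (3/32 : K) * c + (0 : K) * d
        simp only [Matrix.cons_val, h0, h1, h2]
        refine ⟨?_, ?_, ?_, ?_⟩ <;> ring
    · refine map_eq _ _ (fun x hx => ?_) (fun x hx => ?_)
      · have := le_phi (fun j => j ≤ 1) (by decide) x hx
        refine supB (fun j => Fin.rev 1 ≤ j) _ (Or.inr ?_) (by decide) (Or.inl (by decide))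
        simp only [S_ap, Matrix.cons_val]; linear_combination this
      · have := le_psi (fun j => Fin.rev 1 ≤ j) (by decide) x hx
        refine supB (fun j => j ≤ 1) _ (Or.inl (by decide)) (by decide) (Or.inr ?_)
        simp only [Matrix.cons_val]; linear_combination this
    · exact map_eq _ _ (fun x _ => supB (fun j => Fin.rev 2 ≤ j) _ (Or.inl (by decide)) (by decide)
        (Or.inl (by decide))) (fun x _ => supB (fun j => j ≤ 2) _ (Or.inl (by decide)) (by decide)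
        (Or.inl (by decide)))

theorem result (K : Type) [Field K] [CharZero K] :
    ∃ (A B S : Module.End K (Fin 4 → K)) (θ η : Fin 3 → K), IsTD A B θ η ∧
      Admissible A B S θ η ∧ (⨆ μ : K, S.eigenspace μ) ≠ ⊤ ∧
      ∃ (μ : K) (x : Fin 4 → K), S (S x - μ • x) = μ • (S x - μ • x) ∧ S x ≠ μ • x := by
  refine ⟨A, B, S, _, _, ⟨triA, triB, irr⟩, adm, fun h => ?_, -6, ![0, 1, 0, 0], ?_, ?_⟩
  · let f : (Fin 4 → K) →ₗ[K] K := (2 : K) • pr 1 + pr 2
    have : (⨆ μ : K, (S (K := K)).eigenspace μ) ≤ LinearMap.ker f := by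
      refine iSup_le fun μ y hy => ?_
      rw [mem_eigenspace_iff, vec_eq] at hy
      obtain ⟨-, b, c, -⟩ := hy
      simp [S_ap] at b c
      have h1 : (μ + 6) * (2 * y 1 + y 2) = 0 := by linear_combination -2 * b - c
      simp only [LinearMap.mem_ker, f]
      simp
      rcases mul_eq_zero.1 h1 with h2 | h2
      · linear_combination (-1 / 5 : K) * b - (1 / 5 : K) * y 1 * h2
      · exact h2
    rw [h] at this
    simpa [f] using this (Submodule.mem_top (x := ![0, 0, 1, 0]))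
  · rw [vec_eq]; simp [S_ap]; constructor <;> norm_num
  · rw [Ne, vec_eq]; simp [S_ap]

end Pool.Agent.Results.MP_6ebba1_al.NotDiag
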